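import Pool.Agent.Q209.PLFinal

set_option autoImplicit false

/-!
# A plastic dense subgroup of the line of size below the continuum
-/

namespace Pool.Agent.Results.MP_f5469c_gt.PlasticSubgroup

open Set MeasureTheory Cardinal Q209.PL

/-- **If there is an uncountable strongly Sierpinski family of fewer than continuum many reals
(this holds after adding `ω₂` random reals to a model of CH), then some dense subgroup `G` of the
real line of cardinality less than the continuum is plastic; every injective non-expansive map of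
`G` into itself is even an isometry.** -/
theorem result (h : ∃ (ι : Type) (r : ι → ℝ), Uncountable ι ∧ #ι < 𝔠 ∧ StronglySierpinski r) :
    ∃ G : AddSubgroup ℝ, Dense (G : Set ℝ) ∧ #G < 𝔠 ∧ Plastic G ∧
      ∀ f : G → G, Function.Injective f → (∀ x y, dist (f x) (f y) ≤ dist x y) →
        ∀ x y, dist (f x) (f y) = dist x y := by
  obtain ⟨ι, r, hι, hc, hr⟩ := h
  have hinj : ∀ f : GG r → GG r, Function.Injective f →
      (∀ x y, dist (f x) (f y) ≤ dist x y) → ∀ x y, dist (f x) (f y) = dist x y := by
    intro f hf hdist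
    classical
    let f0 : ℝ → ℝ := fun x => if hx : x ∈ GG r then (f ⟨x, hx⟩ : ℝ) else 0
    have hf0 : ∀ x (hx : x ∈ GG r), f0 x = f ⟨x, hx⟩ := fun x hx => by simp [f0, hx]
    have hL : LipschitzOnWith 1 f0 (GG r) := LipschitzOnWith.of_dist_le_mul fun x hx y hy => by
      rw [hf0 x hx, hf0 y hy, NNReal.coe_one, one_mul]
      exact hdist ⟨x, hx⟩ ⟨y, hy⟩
    obtain ⟨F, hF, hFf⟩ := hL.extend_real
    have hFG : ∀ x (hx : x ∈ GG r), F x = f ⟨x, hx⟩ := fun x hx => by
      rw [← hFf hx, hf0 x hx]
    have hmain := main hr hι (F := F) (fun x y => by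
        have := hF.dist_le_mul x y
        rwa [NNReal.coe_one, one_mul, Real.dist_eq, Real.dist_eq] at this)
      (fun x hx => by rw [hFG x hx]; exact (f ⟨x, hx⟩).2)
      (fun x hx y hy hxy => by
        rw [hFG x hx, hFG y hy] at hxy
        have := hf (Subtype.ext hxy)
        exact congrArg Subtype.val this)
    intro x y
    have := hmain x y
    rw [hFG x x.2, hFG y y.2] at this
    rw [Subtype.dist_eq, Subtype.dist_eq, Real.dist_eq, Real.dist_eq]
    exact this
  refine ⟨GG r, ?_, ?_, fun f hf hd => hinj f hf.1 hd, hinj⟩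
  · refine (GA_dense r (B := univ) fun b => mem_univ _).mono ?_
    intro x hx
    exact GA_sub_GG r _ hx
  · have h1 : #(GG r) ≤ #(ι ⊕ Bool →₀ ℤ) := mk_range_le
    refine h1.trans_lt ?_
    have : Infinite ι := inferInstance
    rw [mk_finsupp_lift_of_infinite]
    simp only [mk_sum, lift_id, mk_bool, lift_uzero, mk_int, mk_denumerable, lift_aleph0]
    refine max_lt ?_ aleph0_lt_continuum
    exact add_lt_of_lt aleph0_le_continuum (by simpa using hc) (by
      simpa using (nat_lt_continuum 2))

end Pool.Agent.Results.MP_f5469c_gt.PlasticSubgroup
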